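import Mathlib
import Pool.Agent.Lib.MP_5aea19_al.Defs
import Pool.Agent.Lib.MP_5aea19_al.IdA
import Pool.Agent.Lib.MP_5aea19_al.Reduction
import Pool.Agent.Lib.MP_5aea19_al.Counterexample

set_option autoImplicit false

namespace Pool.Agent.Results.MP_5aea19_al.LocalResidualFiniteness

open Pool.Agent.Lib.MP_5aea19_al

universe u

/-- The free associative `F`-algebra without unit on countably many generators `x₀, x₁, ...`:
the semigroup algebra of the free semigroup on `ℕ`. Its elements are the noncommutative
polynomials without constant term. -/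
abbrev FreeAlg (F : Type u) [Field F] : Type u := MonoidAlgebra F (FreeSemigroup ℕ)

/-- The value `p(a₀, a₁, ...)` of a noncommutative polynomial `p` in a nonunital algebra `A`. -/
noncomputable def value {F : Type u} [Field F] {A : Type u} [NonUnitalRing A] [Module F A]
    [IsScalarTower F A A] [SMulCommClass F A A] (a : ℕ → A) (p : FreeAlg F) : A :=
  MonoidAlgebra.liftMagma F (FreeSemigroup.lift a) p

/-- The algebra `A` belongs to the variety defined by the set `S` of identities: every
polynomial of `S` vanishes under all substitutions of elements of `A`. -/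
def InVariety {F : Type u} [Field F] (S : Set (FreeAlg F)) (A : Type u) [NonUnitalRing A]
    [Module F A] [IsScalarTower F A A] [SMulCommClass F A A] : Prop :=
  ∀ p ∈ S, ∀ a : ℕ → A, value a p = 0

/-- The nonunital algebra `A` is finitely generated. -/
def FinGen (F : Type u) [Field F] (A : Type u) [NonUnitalRing A]
    [Module F A] [IsScalarTower F A A] [SMulCommClass F A A] : Prop :=
  ∃ X : Set A, X.Finite ∧ NonUnitalAlgebra.adjoin F X = ⊤

/-- The nonunital algebra `A` is residually finite: every nonzero element survives in some
homomorphism onto a finite-dimensional algebra. -/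
def ResiduallyFinite (F : Type u) [Field F] (A : Type u) [NonUnitalRing A]
    [Module F A] [IsScalarTower F A A] [SMulCommClass F A A] : Prop :=
  ∀ a : A, a ≠ 0 → ∃ (B : Type u) (_ : NonUnitalRing B) (_ : Module F B)
    (_ : IsScalarTower F B B) (_ : SMulCommClass F B B) (φ : A →ₙₐ[F] B),
      FiniteDimensional F B ∧ Function.Surjective φ ∧ φ a ≠ 0

/-- The variety defined by the set `S` of identities is locally residually finite: every
finitely generated algebra in it is residually finite. -/
def LocallyResiduallyFinite {F : Type u} [Field F] (S : Set (FreeAlg F)) : Prop :=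
  ∀ (A : Type u) [NonUnitalRing A] [Module F A] [IsScalarTower F A A] [SMulCommClass F A A],
    InVariety S A → FinGen F A → ResiduallyFinite F A

/-- The set of all consequences of the identity `x (y z - z y) t = 0`: the span of all products
`u (v w - w v) s` with `u, v, w, s` in the free algebra (a T-ideal of the free algebra). -/
noncomputable def conseq (F : Type u) [Field F] : Submodule F (FreeAlg F) :=
  Submodule.span F {p | ∃ u v w s : FreeAlg F, p = u * (v * w - w * v) * s}

theorem conseq_eq (F : Type u) [Field F] : conseq F = T0 F := rfl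

section suff

variable {F : Type u} [Field F] {A : Type u} [NonUnitalRing A] [Module F A]
  [IsScalarTower F A A] [SMulCommClass F A A]

/-- the augmentation ideal of the unital hull -/
def aug (F : Type u) [Field F] (A : Type u) [NonUnitalRing A] [Module F A]
    [IsScalarTower F A A] [SMulCommClass F A A] : Ideal (Unitization F A) :=
  RingHom.ker (Unitization.fstHom F A)

theorem mem_aug {x : Unitization F A} : x ∈ aug F A ↔ x.fst = 0 := Iff.rfl

theorem value_inr (b : ℕ → A) (p : FreeAlg F) :
    MonoidAlgebra.liftMagma F (FreeSemigroup.lift fun i => (Unitization.inr (b i) :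
      Unitization F A)) p = Unitization.inr (value b p) := by
  have : MonoidAlgebra.liftMagma F (FreeSemigroup.lift fun i => (Unitization.inr (b i) :
      Unitization F A)) = (Unitization.inrNonUnitalAlgHom F A).comp
        (MonoidAlgebra.liftMagma F (FreeSemigroup.lift b)) := by
    apply MonoidAlgebra.nonUnitalAlgHom_ext' F
    apply FreeSemigroup.hom_ext
    funext w
    simp
  rw [this]
  rfl

theorem value_aug {S : Set (FreeAlg F)} {p : FreeAlg F} (hp : p ∈ S) (hA : InVariety S A)
    (a : ℕ → Unitization F A) (ha : ∀ i, a i ∈ aug F A) :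
    MonoidAlgebra.liftMagma F (FreeSemigroup.lift a) p = 0 := by
  have h1 : a = fun i => (Unitization.inr ((a i).snd) : Unitization F A) := by
    funext i
    have := mem_aug.1 (ha i)
    refine Unitization.ext ?_ ?_
    · rw [this, Unitization.fst_inr]
    · rw [Unitization.snd_inr]
  rw [h1, value_inr, hA p hp, Unitization.inr_zero]

theorem adjoin_top {X : Set A} (hX : NonUnitalAlgebra.adjoin F X = ⊤) :
    Algebra.adjoin F ((Unitization.inr : A → Unitization F A) '' X) = ⊤ := by
  rw [eq_top_iff]
  intro x _
  have h1 : ∀ a : A, (Unitization.inr a : Unitization F A) ∈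
      Algebra.adjoin F ((Unitization.inr : A → Unitization F A) '' X) := by
    intro a
    have ha : a ∈ NonUnitalAlgebra.adjoin F X := by rw [hX]; trivial
    induction ha using NonUnitalAlgebra.adjoin_induction with
    | mem x hx => exact Algebra.subset_adjoin ⟨x, hx, rfl⟩
    | add x y _ _ hx hy => rw [Unitization.inr_add]; exact Subalgebra.add_mem _ hx hy
    | zero => rw [Unitization.inr_zero]; exact Subalgebra.zero_mem _
    | mul x y _ _ hx hy => rw [Unitization.inr_mul]; exact Subalgebra.mul_mem _ hx hy
    | smul r x _ hx => rw [Unitization.inr_smul]; exact Subalgebra.smul_mem _ hx r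
  rw [← Unitization.inl_fst_add_inr_snd_eq x]
  refine Subalgebra.add_mem _ ?_ (h1 _)
  exact Subalgebra.algebraMap_mem _ x.fst

end suff

/-- **Criterion.** Over a finite field, the variety of associative algebras defined by a set `S`
of identities is locally residually finite if and only if `S` contains a polynomial which is not a
consequence of `x (y z - z y) t = 0`. -/
theorem result (F : Type u) [Field F] [Finite F] (S : Set (FreeAlg F)) :
    LocallyResiduallyFinite S ↔ ∃ p ∈ S, p ∉ conseq F := by
  constructor
  · intro h
    by_contra hcon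
    push Not at hcon
    obtain ⟨A, _, _, _, _, h1, h2, x, hx, h3⟩ := exists_counterexample F
    obtain ⟨B, _, _, _, _, φ, hB, -, hφ⟩ := h A (fun p hp a => h1 p (hcon p hp) a) h2 x hx
    have : Finite B := Module.finite_of_finite F
    exact hφ (h3 B φ)
  · rintro ⟨p, hpS, hp⟩ A _ _ _ _ hA ⟨X, hX, hXtop⟩ x hx
    classical
    have two : (aug F A).IsTwoSided :=
      inferInstanceAs (RingHom.ker (Unitization.fstHom F A)).IsTwoSided
    obtain ⟨D, hD, hDid⟩ := exists_goodD.{u, u} p hp
    have hp0 : p ≠ 0 := by
      rintro rfl
      exact hp (Submodule.zero_mem _)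
    obtain ⟨d, hd, α, hα, hml⟩ := exists_mlId.{u, u} p hp0
    obtain ⟨S', rfl⟩ : ∃ S' : Finset A, (S' : Set A) = X := ⟨hX.toFinset, hX.coe_toFinset⟩
    let e : Fin S'.card → Unitization F A := fun i => Unitization.inr (S'.equivFin.symm i).1
    have he : Set.range e = (Unitization.inr : A → Unitization F A) '' (S' : Set A) := by
      ext y
      constructor
      · rintro ⟨i, rfl⟩
        exact ⟨_, (S'.equivFin.symm i).2, rfl⟩
      · rintro ⟨z, hz, rfl⟩
        exact ⟨S'.equivFin ⟨z, hz⟩, by simp [e]⟩
    have hdat : Dat D α (Unitization F A) (aug F A) e :=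
      { two := two
        did := hDid _ (aug F A) (value_aug hpS hA)
        mlid := hml _ (aug F A) (value_aug hpS hA)
        mem := fun i => by rw [mem_aug]; exact Unitization.fst_inr F _
        top := by rw [he]; exact adjoin_top hXtop }
    have hx' : (Unitization.inr x : Unitization F A) ≠ 0 := fun h =>
      hx (Unitization.inr_injective (by rw [h, Unitization.inr_zero]))
    obtain ⟨K, hK, hKfi, hxK⟩ := resid_main hD hd hα hdat (Unitization.inr x) hx'
    have := hK.isTwoSided
    have h1 := (fi_iff K).1 hKfi
    have hfin : Module.Finite F (Unitization F A ⧸ hK.toIdeal) := by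
      refine Module.Finite.of_surjective
        (K.liftQ (Ideal.Quotient.mkₐ F hK.toIdeal).toLinearMap ?_) ?_
      · intro y hy
        exact Ideal.Quotient.eq_zero_iff_mem.2 hy
      · intro y
        obtain ⟨z, rfl⟩ := Ideal.Quotient.mk_surjective y
        exact ⟨K.mkQ z, rfl⟩
    let ψ : A →ₙₐ[F] (Unitization F A ⧸ hK.toIdeal) :=
      ((Ideal.Quotient.mkₐ F hK.toIdeal : Unitization F A →ₐ[F] Unitization F A ⧸ hK.toIdeal) :
        Unitization F A →ₙₐ[F] Unitization F A ⧸ hK.toIdeal).comp
        (Unitization.inrNonUnitalAlgHom F A)
    have hψ : ψ x ≠ 0 := by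
      intro h
      exact hxK (Ideal.Quotient.eq_zero_iff_mem.1 h)
    refine ⟨NonUnitalAlgHom.range ψ, inferInstance, inferInstance, inferInstance, inferInstance,
      NonUnitalAlgHom.rangeRestrict ψ, ?_, ?_, ?_⟩
    · have hfin' : Finite (Unitization F A ⧸ hK.toIdeal) := Module.finite_of_finite F
      have : Finite (NonUnitalAlgHom.range ψ) := Subtype.finite
      exact Module.Finite.of_finite
    · rintro ⟨_, y, rfl⟩
      exact ⟨y, rfl⟩
    · intro h
      exact hψ (congrArg Subtype.val h)

end Pool.Agent.Results.MP_5aea19_al.LocalResidualFiniteness
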